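import Pool.Agent.L0h14.CK.Main

/-!
# Varieties whose cohomology below the middle degree comes from surfaces
-/

universe u v w

open CategoryTheory

set_option autoImplicit false

namespace Pool.Agent.L0h14.CK

variable {𝒱 : Type u} [Category.{v} 𝒱] [Preadditive 𝒱] [Linear ℚ 𝒱] {F : Type w} [Field F]
variable {T : CorrTheory 𝒱 F} {J : ∀ X Y : 𝒱, Submodule ℚ (X ⟶ Y)}

/-- The endomorphisms which act on `H^k(X)` as elements of `J` of degree zero. -/
def ActJ (T : CorrTheory 𝒱 F) (J : ∀ X Y : 𝒱, Submodule ℚ (X ⟶ Y)) (X : 𝒱) (k : ℤ) : AddSubgroup (X ⟶ X) where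
  carrier := {f | ∃ y ∈ J X X, y ∈ T.gr X X 0 ∧ ∀ x ∈ T.deg X k, T.H.map f x = T.H.map y x}
  zero_mem' := ⟨0, (J X X).zero_mem, (T.gr X X 0).zero_mem, fun _ _ => rfl⟩
  add_mem' := by
    have := T.additive
    rintro a b ⟨y, h1, h2, h3⟩ ⟨y', h1', h2', h3'⟩
    refine ⟨y + y', (J X X).add_mem h1 h1', (T.gr X X 0).add_mem h2 h2', fun x hx => ?_⟩
    rw [T.H.map_add, T.H.map_add]
    show T.H.map a x + T.H.map b x = T.H.map y x + T.H.map y' x
    rw [h3 x hx, h3' x hx]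
  neg_mem' := by
    have := T.additive
    rintro a ⟨y, h1, h2, h3⟩
    refine ⟨-y, (J X X).neg_mem h1, (T.gr X X 0).neg_mem h2, fun x hx => ?_⟩
    rw [T.H.map_neg, T.H.map_neg]
    show - T.H.map a x = - T.H.map y x
    rw [h3 x hx]

theorem mem_ActJ {X : 𝒱} {k : ℤ} {f : X ⟶ X} : f ∈ ActJ T J X k ↔
    ∃ y ∈ J X X, y ∈ T.gr X X 0 ∧ ∀ x ∈ T.deg X k, T.H.map f x = T.H.map y x := Iff.rfl

theorem comp_gr0 {X Y : 𝒱} {i : ℤ} {f : X ⟶ Y} {g : Y ⟶ X} (hf : f ∈ T.gr X Y (-i)) (hg : g ∈ T.gr Y X i) :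
    f ≫ g ∈ T.gr X X 0 := by
  have := T.comp_gr hf hg
  rwa [neg_add_cancel] at this

theorem comp_gr00 {X : 𝒱} {f g : X ⟶ X} (hf : f ∈ T.gr X X 0) (hg : g ∈ T.gr X X 0) :
    f ≫ g ∈ T.gr X X 0 := by
  have := T.comp_gr hf hg
  rwa [add_zero] at this

theorem tp_gr0 {X : 𝒱} {f : X ⟶ X} (hf : f ∈ T.gr X X 0) : T.tp f ∈ T.gr X X 0 := by
  have := T.tp_gr hf
  rwa [zero_add, sub_self] at this

theorem tp_one (X : 𝒱) : T.tp (𝟙 X) = 𝟙 X := by
  have h := T.tp_comp (T.tp (𝟙 X)) (𝟙 X)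
  rw [Category.comp_id, T.tp_tp, Category.comp_id] at h
  exact h.symm

theorem deg_map0 {X : 𝒱} {f : X ⟶ X} (hf : f ∈ T.gr X X 0) {k : ℤ} {x : T.H.obj X} (hx : x ∈ T.deg X k) :
    T.H.map f x ∈ T.deg X k := by
  have := T.deg_map hf x hx
  rwa [mul_zero, add_zero] at this

theorem map_comp_apply {X Y Z : 𝒱} (f : X ⟶ Y) (g : Y ⟶ Z) (x : T.H.obj X) :
    T.H.map (f ≫ g) x = T.H.map g (T.H.map f x) := by
  rw [T.H.map_comp]
  rfl

/-- Right multiples. -/
theorem actJ_comp (hJ : T.FiniteIdeal J) {X : 𝒱} {k : ℤ} {f g : X ⟶ X} (hf : f ∈ T.gr X X 0) (hg : g ∈ ActJ T J X k) :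
    f ≫ g ∈ ActJ T J X k := by
  obtain ⟨y, h1, h2, h3⟩ := hg
  refine ⟨f ≫ y, hJ.comp_left f y h1, comp_gr00 hf h2, fun x hx => ?_⟩
  rw [map_comp_apply, map_comp_apply, h3 _ (deg_map0 hf hx)]

theorem actJ_comp' (hJ : T.FiniteIdeal J) {X : 𝒱} {k : ℤ} {f g : X ⟶ X} (hf : f ∈ ActJ T J X k) (hg : g ∈ T.gr X X 0) :
    f ≫ g ∈ ActJ T J X k := by
  obtain ⟨y, h1, h2, h3⟩ := hf
  refine ⟨y ≫ g, hJ.comp_right y g h1, comp_gr00 h2 hg, fun x hx => ?_⟩
  rw [map_comp_apply, map_comp_apply, h3 _ hx]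

/-- Duality. -/
theorem tp_zero {X : 𝒱} {k : ℤ} {f : X ⟶ X} (hf : f ∈ T.gr X X 0) (h : ∀ x ∈ T.deg X k, T.H.map f x = 0) :
    ∀ x ∈ T.deg X (2 * T.dim X - k), T.H.map (T.tp f) x = 0 := by
  intro y hy
  refine T.pair_nondeg X _ _ (deg_map0 (tp_gr0 hf) hy) fun x hx => ?_
  rw [← T.pair_tp, h x (by rwa [sub_sub_cancel] at hx), map_zero, LinearMap.zero_apply]

theorem actJ_tp (hJ : T.FiniteIdeal J) {X : 𝒱} {k : ℤ} {f : X ⟶ X} (hf0 : f ∈ T.gr X X 0) (hf : f ∈ ActJ T J X k) :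
    T.tp f ∈ ActJ T J X (2 * T.dim X - k) := by
  have := T.additive
  obtain ⟨y, h1, h2, h3⟩ := hf
  refine ⟨T.tp y, hJ.tp y h1, tp_gr0 h2, fun x hx => ?_⟩
  have h4 := tp_zero (f := f - y) ((T.gr X X 0).sub_mem hf0 h2) (fun x hx => by
    rw [T.H.map_sub]
    show T.H.map f x - T.H.map y x = 0
    rw [h3 x hx, sub_self]) x hx
  rw [map_sub, T.H.map_sub] at h4
  exact sub_eq_zero.mp h4

/-- A surface: the cohomology in degrees different from two comes from `J`. -/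
theorem exists_surf (hJ : T.FiniteIdeal J) (S : 𝒱) (hS : T.dim S = 2) :
    ∃ y ∈ J S S, y ∈ T.gr S S 0 ∧ ∀ j, j ≠ 2 → ∀ x ∈ T.deg S j, T.H.map y x = x := by
  have := T.additive
  obtain ⟨f, hf1, hf2, hf3⟩ := hJ.picard S
  have hh : ∀ j, 3 ≤ j → ∀ x ∈ T.deg S j, T.H.map (T.tp f) x = x := by
    intro j hj x hx
    have h := tp_zero (k := 4 - j) (f := f - 𝟙 S) ((T.gr S S 0).sub_mem hf2 (T.one_gr S)) (fun x hx => by
      rw [T.H.map_sub, T.H.map_id]
      show T.H.map f x - x = 0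
      rw [hf3 _ (by omega) x hx, sub_self]) x (by
        have e : 2 * T.dim S - (4 - j) = j := by rw [hS]; omega
        rwa [e])
    rw [map_sub, tp_one, T.H.map_sub, T.H.map_id] at h
    exact sub_eq_zero.mp h
  refine ⟨f + T.tp f - f ≫ T.tp f, (J S S).sub_mem ((J S S).add_mem hf1 (hJ.tp f hf1)) (hJ.comp_right _ _ hf1),
    (T.gr S S 0).sub_mem ((T.gr S S 0).add_mem hf2 (tp_gr0 hf2)) (comp_gr00 hf2 (tp_gr0 hf2)), fun j hj x hx => ?_⟩
  rw [T.H.map_sub, T.H.map_add]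
  show T.H.map f x + T.H.map (T.tp f) x - T.H.map (f ≫ T.tp f) x = x
  rw [map_comp_apply]
  rcases lt_or_ge j 2 with h | h
  · rw [hf3 j (by omega) x hx]
    abel
  · rw [hh j (by omega) x hx, hh j (by omega) _ (deg_map0 hf2 hx)]
    abel

/-- A correspondence which factors through a surface, twisted by `i`, acts on `H^k`, `k ≠ 2 i + 2`, as an element of `J`. -/
theorem actJ_surf (hJ : T.FiniteIdeal J) {X S : 𝒱} (hS : T.dim S = 2) {i : ℤ} {a : X ⟶ S} {b : S ⟶ X}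
    (ha : a ∈ T.gr X S (-i)) (hb : b ∈ T.gr S X i) {k : ℤ} (hk : k ≠ 2 * i + 2) : a ≫ b ∈ ActJ T J X k := by
  obtain ⟨y, h1, h2, h3⟩ := exists_surf hJ S hS
  refine ⟨a ≫ y ≫ b, hJ.comp_left _ _ (hJ.comp_right _ _ h1), ?_, fun x hx => ?_⟩
  · have := T.comp_gr ha (T.comp_gr h2 hb)
    rwa [zero_add, neg_add_cancel] at this
  · rw [map_comp_apply, map_comp_apply, map_comp_apply, h3 (k + 2 * -i) (by omega) _ (T.deg_map ha x hx)]

/-- The surface criterion. -/
theorem hasCK_of_surfaces (hJ : T.FiniteIdeal J) (X : 𝒱) (c : ℕ) (hc : 2 * (c : ℤ) + 1 ≤ T.dim X) (S : ℕ → 𝒱)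
    (a : ∀ i, X ⟶ S i) (b : ∀ i, S i ⟶ X) (hS : ∀ i < c, T.dim (S i) = 2) (ha : ∀ i < c, a i ∈ T.gr X (S i) (-i))
    (hb : ∀ i < c, b i ∈ T.gr (S i) X i) (γ : X ⟶ X) (hγ : γ = 𝟙 X - ∑ i ∈ Finset.range c, a i ≫ b i)
    (h1 : ∀ i < c, (a i ≫ b i) ≫ γ ∈ J X X) (h2 : ∀ k < T.dim X, γ ∈ ActJ T J X k) : T.HasCK X := by
  classical
  have hadd := T.additive
  set n := T.dim X with hn
  let L : ℕ → (X ⟶ X) := fun i => a i ≫ b i
  have hL0 : ∀ i < c, L i ∈ T.gr X X 0 := fun i hi => comp_gr0 (ha i hi) (hb i hi)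
  have hU0 : (∑ i ∈ Finset.range c, L i) ∈ T.gr X X 0 :=
    (T.gr X X 0).sum_mem fun i hi => hL0 i (Finset.mem_range.mp hi)
  have hγ0 : γ ∈ T.gr X X 0 := by
    rw [hγ]
    exact (T.gr X X 0).sub_mem (T.one_gr X) hU0
  -- the weight is raised
  have hLL : ∀ i < c, ∀ k < c, i < k → L i ≫ L k ∈ J X X := by
    intro i hi k hk hik
    have h : b i ≫ a k ∈ J (S i) (S k) := by
      refine hJ.divisor _ _ (i + -k) ?_ (T.comp_gr (hb i hi) (ha k hk))
      rw [hS i hi]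
      omega
    show (a i ≫ b i) ≫ a k ≫ b k ∈ J X X
    have : (a i ≫ b i) ≫ a k ≫ b k = a i ≫ (b i ≫ a k) ≫ b k := by simp only [Category.assoc]
    rw [this]
    exact hJ.comp_left _ _ (hJ.comp_right _ _ h)
  have hLt : ∀ i < c, ∀ k < c, L i ≫ T.tp (L k) ∈ J X X := by
    intro i hi k hk
    have h : b i ≫ T.tp (b k) ∈ J (S i) (S k) := by
      refine hJ.divisor _ _ (i + (k + T.dim (S k) - T.dim X)) ?_ (T.comp_gr (hb i hi) (T.tp_gr (hb k hk)))
      rw [hS i hi, hS k hk, ← hn]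
      omega
    show (a i ≫ b i) ≫ T.tp (a k ≫ b k) ∈ J X X
    rw [T.tp_comp]
    have : (a i ≫ b i) ≫ T.tp (b k) ≫ T.tp (a k) = a i ≫ (b i ≫ T.tp (b k)) ≫ T.tp (a k) := by
      simp only [Category.assoc]
    rw [this]
    exact hJ.comp_left _ _ (hJ.comp_right _ _ h)
  have hUt : ∀ i < c, L i ≫ T.tp (∑ k ∈ Finset.range c, L k) ∈ J X X := by
    intro i hi
    rw [map_sum, Preadditive.comp_sum]
    exact (J X X).sum_mem fun k hk => hLt i hi k (Finset.mem_range.mp hk)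
  have hUt' : ∀ i < c, (∑ k ∈ Finset.range c, L k) ≫ T.tp (L i) ∈ J X X := by
    intro i hi
    rw [Preadditive.sum_comp]
    exact (J X X).sum_mem fun k hk => hLt k (Finset.mem_range.mp hk) i hi
  have htγ : T.tp γ = 𝟙 X - T.tp (∑ k ∈ Finset.range c, L k) := by
    rw [hγ, map_sub, tp_one]
  have hLm : ∀ i < c, L i ≫ T.tp γ ≫ γ ∈ J X X := by
    intro i hi
    have : L i ≫ T.tp γ ≫ γ = L i ≫ γ - (L i ≫ T.tp (∑ k ∈ Finset.range c, L k)) ≫ γ := by
      rw [htγ]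
      simp only [Preadditive.sub_comp, Preadditive.comp_sub, Category.id_comp, Category.assoc]
    rw [this]
    exact (J X X).sub_mem (h1 i hi) (hJ.comp_right _ _ (hUt i hi))
  have hγt : ∀ i < c, γ ≫ T.tp (L i) - T.tp (L i) ∈ J X X := by
    intro i hi
    have : γ ≫ T.tp (L i) - T.tp (L i) = - ((∑ k ∈ Finset.range c, L k) ≫ T.tp (L i)) := by
      rw [hγ, Preadditive.sub_comp, Category.id_comp]
      abel
    rw [this]
    exact (J X X).neg_mem (hUt' i hi)
  -- `M i` for the high weights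
  let M : ℕ → (X ⟶ X) := fun i => T.tp (L i) ≫ γ
  have hM0 : ∀ i < c, M i ∈ T.gr X X 0 := fun i hi => comp_gr00 (tp_gr0 (hL0 i hi)) hγ0
  have hLM : ∀ i < c, ∀ k < c, L i ≫ M k ∈ J X X := by
    intro i hi k hk
    show L i ≫ T.tp (L k) ≫ γ ∈ J X X
    rw [← Category.assoc]
    exact hJ.comp_right _ _ (hLt i hi k hk)
  have hmM : ∀ k < c, (T.tp γ ≫ γ) ≫ M k ∈ J X X := by
    intro k hk
    have : (T.tp γ ≫ γ) ≫ M k = (T.tp γ ≫ (γ ≫ T.tp (L k) - T.tp (L k))) ≫ γ + T.tp (L k ≫ γ) ≫ γ := by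
      show (T.tp γ ≫ γ) ≫ T.tp (L k) ≫ γ = _
      rw [T.tp_comp (L k) γ]
      simp only [Preadditive.sub_comp, Preadditive.comp_sub, Category.assoc]
      abel
    rw [this]
    exact (J X X).add_mem (hJ.comp_right _ _ (hJ.comp_left _ _ (hγt k hk))) (hJ.comp_right _ _ (hJ.tp _ (h1 k hk)))
  have hMM : ∀ l < c, ∀ k < c, k < l → M l ≫ M k ∈ J X X := by
    intro l hl k hk hkl
    have : M l ≫ M k = (T.tp (L l) ≫ (γ ≫ T.tp (L k) - T.tp (L k))) ≫ γ + T.tp (L k ≫ L l) ≫ γ := by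
      show (T.tp (L l) ≫ γ) ≫ T.tp (L k) ≫ γ = _
      rw [T.tp_comp (L k) (L l)]
      simp only [Preadditive.sub_comp, Preadditive.comp_sub, Category.assoc]
      abel
    rw [this]
    exact (J X X).add_mem (hJ.comp_right _ _ (hJ.comp_left _ _ (hγt k hk)))
      (hJ.comp_right _ _ (hJ.tp _ (hLL k hk l hl hkl)))
  let β : ℤ → (X ⟶ X) := fun w => ∑ i ∈ Finset.range c, ((if w = 2 * i + 2 then L i else 0) +
    (if w = 2 * n - 2 * i - 2 then M i else 0)) + if w = n then T.tp γ ≫ γ else 0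
  refine hasCK_of_triangular hJ X β (fun w => ?_) ?_ (fun w w' hww => ?_) (fun w k hk => ?_)
  · refine (T.gr X X 0).add_mem ((T.gr X X 0).sum_mem fun i hi => (T.gr X X 0).add_mem ?_ ?_) ?_
    · split_ifs
      exacts [hL0 i (Finset.mem_range.mp hi), (T.gr X X 0).zero_mem]
    · split_ifs
      exacts [hM0 i (Finset.mem_range.mp hi), (T.gr X X 0).zero_mem]
    · split_ifs
      exacts [comp_gr00 (tp_gr0 hγ0) hγ0, (T.gr X X 0).zero_mem]
  · show ∑ w ∈ Finset.Icc 0 (2 * T.dim X), (∑ i ∈ Finset.range c, ((if w = 2 * i + 2 then L i else 0) +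
      (if w = 2 * n - 2 * i - 2 then M i else 0)) + if w = n then T.tp γ ≫ γ else 0) = 𝟙 X
    rw [Finset.sum_add_distrib, Finset.sum_comm]
    have hin : ∀ i ∈ Finset.range c, ∑ w ∈ Finset.Icc 0 (2 * T.dim X), ((if w = 2 * (i : ℤ) + 2 then L i else 0) +
        (if w = 2 * n - 2 * i - 2 then M i else 0)) = L i + T.tp (L i) ≫ γ := by
      intro i hi
      have hic := Finset.mem_range.mp hi
      rw [Finset.sum_add_distrib, Finset.sum_ite_eq', Finset.sum_ite_eq', if_pos, if_pos]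
      · rw [Finset.mem_Icc, ← hn]
        omega
      · rw [Finset.mem_Icc, ← hn]
        omega
    rw [Finset.sum_congr rfl hin, Finset.sum_ite_eq', if_pos, Finset.sum_add_distrib, ← Preadditive.sum_comp, ← map_sum]
    · have h3 : T.tp (∑ i ∈ Finset.range c, L i) = 𝟙 X - T.tp γ := by rw [htγ]; abel
      rw [h3, Preadditive.sub_comp, Category.id_comp]
      have h4 : ∑ i ∈ Finset.range c, L i = 𝟙 X - γ := by rw [hγ]; abel
      rw [h4]
      abel
    · rw [Finset.mem_Icc, ← hn]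
      omega
  · show (∑ i ∈ Finset.range c, ((if w = 2 * (i : ℤ) + 2 then L i else 0) +
      (if w = 2 * n - 2 * i - 2 then M i else 0)) + if w = n then T.tp γ ≫ γ else 0) ≫
      (∑ i ∈ Finset.range c, ((if w' = 2 * (i : ℤ) + 2 then L i else 0) +
      (if w' = 2 * n - 2 * i - 2 then M i else 0)) + if w' = n then T.tp γ ≫ γ else 0) ∈ J X X
    have hz : ∀ f : X ⟶ X, (0 : X ⟶ X) ≫ f ∈ J X X := fun f => by rw [Limits.zero_comp]; exact (J X X).zero_mem
    have hz' : ∀ f : X ⟶ X, f ≫ (0 : X ⟶ X) ∈ J X X := fun f => by rw [Limits.comp_zero]; exact (J X X).zero_mem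
    have hnh : ¬ (w = n ∧ w' = n) := by omega
    rw [Preadditive.add_comp, Preadditive.comp_add, Preadditive.comp_add]
    refine (J X X).add_mem ((J X X).add_mem ?_ ?_) ((J X X).add_mem ?_ ?_)
    · rw [Preadditive.sum_comp]
      refine (J X X).sum_mem fun i hi => ?_
      have hic := Finset.mem_range.mp hi
      rw [Preadditive.comp_sum]
      refine (J X X).sum_mem fun k hk => ?_
      have hkc := Finset.mem_range.mp hk
      rw [Preadditive.add_comp, Preadditive.comp_add, Preadditive.comp_add]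
      refine (J X X).add_mem ((J X X).add_mem ?_ ?_) ((J X X).add_mem ?_ ?_)
      · split_ifs
        exacts [hLL i hic k hkc (by omega), hz' _, hz _, hz _]
      · split_ifs
        exacts [hLM i hic k hkc, hz' _, hz _, hz _]
      · split_ifs
        · omega
        exacts [hz' _, hz _, hz _]
      · split_ifs
        exacts [hMM i hic k hkc (by omega), hz' _, hz _, hz _]
    · rw [Preadditive.sum_comp]
      refine (J X X).sum_mem fun i hi => ?_
      have hic := Finset.mem_range.mp hi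
      rw [Preadditive.add_comp]
      refine (J X X).add_mem ?_ ?_
      · split_ifs
        exacts [hLm i hic, hz' _, hz _, hz _]
      · split_ifs
        · omega
        exacts [hz' _, hz _, hz _]
    · rw [Preadditive.comp_sum]
      refine (J X X).sum_mem fun k hk => ?_
      have hkc := Finset.mem_range.mp hk
      rw [Preadditive.comp_add]
      refine (J X X).add_mem ?_ ?_
      · split_ifs
        · omega
        exacts [hz' _, hz _, hz _]
      · split_ifs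
        exacts [hmM k hkc, hz' _, hz _, hz _]
    · split_ifs
      · omega
      exacts [hz' _, hz _, hz _]
  · have hk' : β w ∈ ActJ T J X k := by
      refine (ActJ T J X k).add_mem ((ActJ T J X k).sum_mem fun i hi => ?_) ?_
      · have hic := Finset.mem_range.mp hi
        refine (ActJ T J X k).add_mem ?_ ?_
        · split_ifs with h
          · exact actJ_surf hJ (hS i hic) (ha i hic) (hb i hic) (by omega)
          · exact (ActJ T J X k).zero_mem
        · split_ifs with h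
          · have h3 : L i ∈ ActJ T J X (2 * n - k) :=
              actJ_surf hJ (hS i hic) (ha i hic) (hb i hic) (by omega)
            have h4 := actJ_tp hJ (hL0 i hic) h3
            rw [← hn, sub_sub_cancel] at h4
            exact actJ_comp' hJ h4 hγ0
          · exact (ActJ T J X k).zero_mem
      · split_ifs with h
        · rcases lt_or_gt_of_ne (fun e : k = n => hk (e.trans h.symm)) with h3 | h3
          · exact actJ_comp hJ (tp_gr0 hγ0) (h2 k h3)
          · have h4 := actJ_tp hJ hγ0 (h2 (2 * n - k) (by omega))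
            rw [← hn, sub_sub_cancel] at h4
            exact actJ_comp' hJ h4 hγ0
        · exact (ActJ T J X k).zero_mem
    exact hk'

end Pool.Agent.L0h14.CK
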