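import Mathlib

/-!
# Correspondences with a Weil cohomology, and ideals of finite-dimensional type
-/

universe u v w

open CategoryTheory

set_option autoImplicit false

namespace Pool.Agent.L0h14.CK

/-- The formal properties of the rational Chow groups of products of smooth projective varieties over a field `k`, and of a
Weil cohomology. The objects of `𝒱` are the smooth projective varieties over `k` (of pure dimension) and the
morphisms from `X` to `Y` are the correspondences, `⨁ CH^j(X × Y)_ℚ`;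

* `gr X Y i = CH^(dim X + i)(X × Y)` is the group of correspondences of degree `i`, `tp` is the transposition;
* `H` is the cohomology, the sum of all `H^j(X)`, with the action of correspondences, and `deg X j = H^j(X)`;
* `pair` is the form `∫ x ∪ y` on `H`, nondegenerate between `H^j` and `H^(2 dim X - j)` (Poincaré duality). -/
structure CorrTheory (𝒱 : Type u) [Category.{v} 𝒱] [Preadditive 𝒱] [Linear ℚ 𝒱] (F : Type w) [Field F] where
  dim : 𝒱 → ℤ
  gr : ∀ X Y : 𝒱, ℤ → Submodule ℚ (X ⟶ Y)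
  tp : ∀ {X Y : 𝒱}, (X ⟶ Y) →+ (Y ⟶ X)
  H : 𝒱 ⥤ ModuleCat.{w} F
  deg : ∀ X : 𝒱, ℤ → Submodule F (H.obj X)
  pair : ∀ X : 𝒱, H.obj X →ₗ[F] H.obj X →ₗ[F] F
  additive : H.Additive
  one_gr : ∀ X : 𝒱, 𝟙 X ∈ gr X X 0
  comp_gr : ∀ {X Y Z : 𝒱} {i j : ℤ} {f : X ⟶ Y} {g : Y ⟶ Z}, f ∈ gr X Y i → g ∈ gr Y Z j → f ≫ g ∈ gr X Z (i + j)
  tp_gr : ∀ {X Y : 𝒱} {i : ℤ} {f : X ⟶ Y}, f ∈ gr X Y i → tp f ∈ gr Y X (i + dim X - dim Y)
  tp_comp : ∀ {X Y Z : 𝒱} (f : X ⟶ Y) (g : Y ⟶ Z), tp (f ≫ g) = tp g ≫ tp f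
  tp_tp : ∀ {X Y : 𝒱} (f : X ⟶ Y), tp (tp f) = f
  finite : ∀ X : 𝒱, FiniteDimensional F (H.obj X)
  deg_map : ∀ {X Y : 𝒱} {i j : ℤ} {f : X ⟶ Y}, f ∈ gr X Y i → ∀ x ∈ deg X j, H.map f x ∈ deg Y (j + 2 * i)
  deg_top : ∀ X : 𝒱, ⨆ j, deg X j = ⊤
  deg_bot : ∀ (X : 𝒱) (j : ℤ), j < 0 ∨ 2 * dim X < j → deg X j = ⊥
  pair_tp : ∀ {X Y : 𝒱} (f : X ⟶ Y) (x : H.obj X) (y : H.obj Y), pair Y (H.map f x) y = pair X x (H.map (tp f) y)
  pair_nondeg : ∀ (X : 𝒱) (j : ℤ), ∀ y ∈ deg X j, (∀ x ∈ deg X (2 * dim X - j), pair X x y = 0) → y = 0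

variable {𝒱 : Type u} [Category.{v} 𝒱] [Preadditive 𝒱] [Linear ℚ 𝒱] {F : Type w} [Field F]

/-- A Chow-Künneth decomposition of `X`: orthogonal idempotent correspondences `π i` of degree zero whose sum is the diagonal
such that `π i` acts on `H^i(X)` as the identity and on `H^j(X)`, `j ≠ i`, as zero. -/
def CorrTheory.HasCK (T : CorrTheory 𝒱 F) (X : 𝒱) : Prop :=
  ∃ π : ℤ → (X ⟶ X), (∀ i, π i ∈ T.gr X X 0) ∧ (∀ i, π i ≫ π i = π i) ∧ (∀ i j, i ≠ j → π i ≫ π j = 0) ∧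
    (∀ i, i < 0 ∨ 2 * T.dim X < i → π i = 0) ∧ ∑ i ∈ Finset.Icc 0 (2 * T.dim X), π i = 𝟙 X ∧
    ∀ i j, ∀ x ∈ T.deg X j, T.H.map (π i) x = if i = j then x else 0

/-- The subspace of `H^2(X)` spanned by the classes of divisors. -/
def CorrTheory.div (T : CorrTheory 𝒱 F) (X : 𝒱) : Submodule F (T.H.obj X) :=
  Submodule.span F {y | ∃ (P : 𝒱) (z : P ⟶ X) (x : T.H.obj P), T.dim P = 0 ∧ z ∈ T.gr P X 1 ∧ T.H.map z x = y}

/-- `J` is an ideal of correspondences, closed under transposition, of finite-dimensional type. The standard example consists of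
the correspondences which factor through finite-dimensional motives (in the sense of Kimura) whose Künneth
projectors are algebraic, for instance through motives of curves and abelian varieties. The conditions are: in `J(X, X)`, in
degree zero,

* all elements are algebraic over `ℚ` (`algebraic`), the homologically trivial ones are nilpotent (`nilpotent`, Kimura), and
their Künneth components belong to `J` (`kunneth`);
* correspondences of codimension at most one belong to `J`, as `Pic(X × Y) = Pic X + Pic Y + Hom(Alb X, Pic⁰ Y)` (`divisor`);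
* `J(X, X)` contains a correspondence of degree zero which acts on `H^0(X)` and `H^1(X)` as the identity (`picard`; Murre's
projectors), and one which acts as the identity on the classes of divisors (`neron_severi`; a sum of products of curves and
divisors). -/
structure CorrTheory.FiniteIdeal (T : CorrTheory 𝒱 F) (J : ∀ X Y : 𝒱, Submodule ℚ (X ⟶ Y)) : Prop where
  comp_left : ∀ {X Y Z : 𝒱} (f : X ⟶ Y) (g : Y ⟶ Z), g ∈ J Y Z → f ≫ g ∈ J X Z
  comp_right : ∀ {X Y Z : 𝒱} (f : X ⟶ Y) (g : Y ⟶ Z), f ∈ J X Y → f ≫ g ∈ J X Z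
  tp : ∀ {X Y : 𝒱} (f : X ⟶ Y), f ∈ J X Y → T.tp f ∈ J Y X
  algebraic : ∀ (X : 𝒱) (f : End X), f ∈ J X X → f ∈ T.gr X X 0 → IsAlgebraic ℚ f
  nilpotent : ∀ (X : 𝒱) (f : End X), f ∈ J X X → f ∈ T.gr X X 0 → T.H.map f = 0 → IsNilpotent f
  kunneth : ∀ (X : 𝒱) (f : X ⟶ X), f ∈ J X X → f ∈ T.gr X X 0 → ∀ i : ℤ, ∃ g ∈ J X X, g ∈ T.gr X X 0 ∧
    ∀ j, ∀ x ∈ T.deg X j, T.H.map g x = if i = j then T.H.map f x else 0
  divisor : ∀ (X Y : 𝒱) (i : ℤ), T.dim X + i ≤ 1 → T.gr X Y i ≤ J X Y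
  picard : ∀ X : 𝒱, ∃ f ∈ J X X, f ∈ T.gr X X 0 ∧ ∀ j ≤ 1, ∀ x ∈ T.deg X j, T.H.map f x = x
  neron_severi : ∀ X : 𝒱, ∃ f ∈ J X X, f ∈ T.gr X X 0 ∧ ∀ x ∈ T.div X, T.H.map f x = x

end Pool.Agent.L0h14.CK
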