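import Pool.Agent.L0h14.CK.Surf

/-!
# Varieties which are fibred over a curve
-/

universe u v w u' v'

open CategoryTheory

set_option autoImplicit false

namespace Pool.Agent.L0h14.CK

variable {𝒱 : Type u} [Category.{v} 𝒱] [Preadditive 𝒱] [Linear ℚ 𝒱] {F : Type w} [Field F]

/-- The relation between the correspondences over the function field `K` of a smooth projective curve `C` over `k` and the
correspondences over `k`. The objects of `𝒲` are the smooth projective varieties `A` over `K` together with a smooth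
projective variety `model A` over `k` with a morphism to `C` whose generic fibre is `A`; the morphisms are the
correspondences of degree zero over `K`.

* `rel A B` consists of the pairs of the generic fibre and of the push-forward to `model A × model B` of the cycles `z` on
the fibre product of the models over `C`, of the dimension which corresponds to correspondences of degree zero. It is
surjective on the first factor and compatible with compositions.
* If `A` is a curve then correspondences of `model A` and `model B` with generic fibre zero are sums of products of components of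
fibres; they factor through varieties of dimension zero and belong to `J` (`small`).
* `H1` is the first cohomology of the geometric generic fibre. Every `A` has a Picard projector `α ≫ β` which factors
through a curve `D` over `K` and acts on `H1` as the identity (`picard`; Murre).
* `van A` is the kernel of the restriction from the cohomology of `model A` to the geometric generic fibre. By the Leray spectral
sequence the part of `van A` in `H^2` is, up to classes of divisors supported on fibres, the cohomology group `H^1(C, R^1)`, and a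
relative correspondence which acts on the first cohomology of the geometric generic fibre as the identity acts on it as
the identity (`leray`). -/
structure Fibration (T : CorrTheory 𝒱 F) (J : ∀ X Y : 𝒱, Submodule ℚ (X ⟶ Y)) (𝒲 : Type u') [Category.{v'} 𝒲]
    [Preadditive 𝒲] where
  model : 𝒲 → 𝒱
  rel : ∀ A B : 𝒲, AddSubgroup ((A ⟶ B) × (model A ⟶ model B))
  H1 : 𝒲 ⥤ ModuleCat.{w} F
  van : ∀ A : 𝒲, Submodule F (T.H.obj (model A))
  lift : ∀ {A B : 𝒲} (f : A ⟶ B), ∃ g ∈ T.gr (model A) (model B) 0, (f, g) ∈ rel A B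
  comp : ∀ {A B D : 𝒲} {f : A ⟶ B} {f' : B ⟶ D} {g : model A ⟶ model B} {g' : model B ⟶ model D},
    (f, g) ∈ rel A B → (f', g') ∈ rel B D → (f ≫ f', g ≫ g') ∈ rel A D
  small : ∀ {A B : 𝒲} (g : model A ⟶ model B), T.dim (model A) = 2 → (0, g) ∈ rel A B → g ∈ J (model A) (model B)
  picard : ∀ A : 𝒲, ∃ (D : 𝒲) (α : A ⟶ D) (β : D ⟶ A), T.dim (model D) = 2 ∧
    (α ≫ β) ≫ (α ≫ β) = α ≫ β ∧ H1.map (α ≫ β) = 𝟙 (H1.obj A)
  leray : ∀ {A : 𝒲} (f : A ⟶ A), ∀ g ∈ T.gr (model A) (model A) 0, (f, g) ∈ rel A A → H1.map f = 𝟙 (H1.obj A) →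
    ∀ x ∈ T.deg (model A) 2, x ∈ van A → x - T.H.map g x ∈ T.div (model A)

variable {T : CorrTheory 𝒱 F} {J : ∀ X Y : 𝒱, Submodule ℚ (X ⟶ Y)}

theorem one_actJ (hJ : T.FiniteIdeal J) (X : 𝒱) {k : ℤ} (hk : k ≤ 1) : 𝟙 X ∈ ActJ T J X k := by
  obtain ⟨f, h1, h2, h3⟩ := hJ.picard X
  refine ⟨f, h1, h2, fun x hx => ?_⟩
  rw [h3 k hk x hx, T.H.map_id]
  rfl

theorem actJ_transport (hJ : T.FiniteIdeal J) {X X' : 𝒱} {k : ℤ} {f : X ⟶ X} {u : X' ⟶ X} {v : X ⟶ X'}
    (hu : u ∈ T.gr X' X 0) (hv : v ∈ T.gr X X' 0) (hf : f ∈ ActJ T J X k) : u ≫ f ≫ v ∈ ActJ T J X' k := by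
  obtain ⟨y, h1, h2, h3⟩ := hf
  refine ⟨u ≫ y ≫ v, hJ.comp_left _ _ (hJ.comp_right _ _ h1), ?_, fun x hx => ?_⟩
  · have := T.comp_gr hu (T.comp_gr h2 hv)
    simpa using this
  · have hx' : T.H.map u x ∈ T.deg X k := by
      have := T.deg_map hu x hx
      rwa [mul_zero, add_zero] at this
    rw [map_comp_apply, map_comp_apply, map_comp_apply, map_comp_apply, h3 _ hx']

/-- Chow-Künneth decompositions of varieties which are fibred over a curve. -/
theorem hasCK_of_fibration (hJ : T.FiniteIdeal J) {𝒲 : Type u'} [Category.{v'} 𝒲] [Preadditive 𝒲]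
    (Φ : Fibration T J 𝒲) (A : 𝒲) (X' : 𝒱) (h3 : 3 ≤ T.dim X')
    {u : X' ⟶ Φ.model A} {v : Φ.model A ⟶ X'} (hu : u ∈ T.gr X' (Φ.model A) 0) (hv : v ∈ T.gr (Φ.model A) X' 0)
    (huv : u ≫ v - 𝟙 X' ∈ J X' X') (hvu : v ≫ u - 𝟙 (Φ.model A) ∈ J (Φ.model A) (Φ.model A))
    (j : Φ.model A ⟶ Φ.model A) (hj : j ∈ J (Φ.model A) (Φ.model A)) (hj0 : j ∈ T.gr (Φ.model A) (Φ.model A) 0)
    (h2 : ∀ x ∈ T.deg (Φ.model A) 2, x - T.H.map j x ∈ Φ.van A)
    (hk : ∀ k, 3 ≤ k → k < T.dim X' → 𝟙 (Φ.model A) ∈ ActJ T J (Φ.model A) k) : T.HasCK X' := by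
  have hadd := T.additive
  obtain ⟨D, α, β, hD, hp, hH⟩ := Φ.picard A
  obtain ⟨a, ha, har⟩ := Φ.lift α
  obtain ⟨b, hb, hbr⟩ := Φ.lift (β ≫ α ≫ β)
  have hp' : α ≫ β ≫ α ≫ β = α ≫ β := by simpa only [Category.assoc] using hp
  have hP : (α ≫ β, a ≫ b) ∈ Φ.rel A A := by
    have := Φ.comp har hbr
    rwa [hp'] at this
  have hP0 : a ≫ b ∈ T.gr (Φ.model A) (Φ.model A) 0 := by
    have := T.comp_gr ha hb
    rwa [add_zero] at this
  have hbb : b ≫ a ≫ b - b ∈ J (Φ.model D) (Φ.model A) := by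
    refine Φ.small _ hD ?_
    have h4 := (Φ.rel D A).sub_mem (Φ.comp hbr (Φ.comp har hbr)) hbr
    have h5 : (β ≫ α ≫ β) ≫ α ≫ β ≫ α ≫ β - β ≫ α ≫ β = 0 := by
      rw [hp']
      simp only [Category.assoc]
      rw [hp', sub_self]
    rw [← h5]
    exact h4
  set γ : (Φ.model A) ⟶ (Φ.model A) := 𝟙 (Φ.model A) - a ≫ b with hγ
  have hγ0 : γ ∈ T.gr (Φ.model A) (Φ.model A) 0 := (T.gr (Φ.model A) (Φ.model A) 0).sub_mem (T.one_gr (Φ.model A)) hP0
  have hact : ∀ k < T.dim X', γ ∈ ActJ T J (Φ.model A) k := by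
    intro k hk'
    have h1 : k ≤ 1 ∨ k = 2 ∨ 3 ≤ k := by omega
    rcases h1 with h1 | rfl | h1
    · have := actJ_comp' hJ (one_actJ hJ (Φ.model A) h1) hγ0
      rwa [Category.id_comp] at this
    · obtain ⟨q, hq1, hq2, hq3⟩ := hJ.neron_severi (Φ.model A)
      refine ⟨(𝟙 (Φ.model A) - j) ≫ γ ≫ q + j ≫ γ, (J (Φ.model A) (Φ.model A)).add_mem (hJ.comp_left _ _ (hJ.comp_left _ _ hq1)) (hJ.comp_right _ _ hj),
        (T.gr (Φ.model A) (Φ.model A) 0).add_mem (comp_gr00 ((T.gr (Φ.model A) (Φ.model A) 0).sub_mem (T.one_gr (Φ.model A)) hj0) (comp_gr00 hγ0 hq2)) (comp_gr00 hj0 hγ0),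
        fun x hx => ?_⟩
      have h4 : T.H.map (𝟙 (Φ.model A) - j) x = x - T.H.map j x := by
        rw [T.H.map_sub, T.H.map_id]
        rfl
      have h5 : T.H.map γ (x - T.H.map j x) ∈ T.div (Φ.model A) := by
        have h6 := Φ.leray (α ≫ β) (a ≫ b) hP0 hP hH (x - T.H.map j x)
          ((T.deg (Φ.model A) 2).sub_mem hx (deg_map0 hj0 hx)) (h2 x hx)
        rw [hγ, T.H.map_sub, T.H.map_id]
        exact h6
      rw [T.H.map_add]
      show T.H.map γ x = T.H.map ((𝟙 (Φ.model A) - j) ≫ γ ≫ q) x + T.H.map (j ≫ γ) x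
      rw [map_comp_apply, map_comp_apply, map_comp_apply, h4, hq3 _ h5, ← map_add, sub_add_cancel]
    · have := actJ_comp' hJ (hk k h1 hk') hγ0
      rwa [Category.id_comp] at this
  refine hasCK_of_surfaces hJ X' 1 (by rw [Nat.cast_one]; omega) (fun _ => Φ.model D) (fun _ => u ≫ a) (fun _ => b ≫ v)
    (fun _ _ => hD) (fun i hi => ?_) (fun i hi => ?_) (𝟙 X' - (u ≫ a) ≫ b ≫ v) ?_ (fun i hi => ?_) (fun k hk' => ?_)
  · obtain rfl : i = 0 := by omega
    have := T.comp_gr hu ha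
    simpa using this
  · obtain rfl : i = 0 := by omega
    have := T.comp_gr hb hv
    simpa using this
  · rw [Finset.sum_range_one]
  · have h5 : ((u ≫ a) ≫ b ≫ v) ≫ (𝟙 X' - (u ≫ a) ≫ b ≫ v) =
        - ((u ≫ a) ≫ (b ≫ a ≫ b - b) ≫ v) - (u ≫ a ≫ b) ≫ (v ≫ u - 𝟙 (Φ.model A)) ≫ (a ≫ b ≫ v) := by
      simp only [Preadditive.comp_sub, Preadditive.sub_comp, Category.assoc, Category.comp_id, Category.id_comp]
      abel
    rw [h5]
    exact (J X' X').sub_mem ((J X' X').neg_mem (hJ.comp_left _ _ (hJ.comp_right _ _ hbb)))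
      (hJ.comp_left _ _ (hJ.comp_right _ _ hvu))
  · have h5 : 𝟙 X' - (u ≫ a) ≫ b ≫ v = u ≫ γ ≫ v - (u ≫ v - 𝟙 X') := by
      rw [hγ]
      simp only [Preadditive.comp_sub, Preadditive.sub_comp, Category.assoc, Category.id_comp]
      abel
    rw [h5]
    refine (ActJ T J X' k).sub_mem (actJ_transport hJ hu hv (hact k hk')) ⟨_, huv, ?_, fun x hx => rfl⟩
    refine (T.gr X' X' 0).sub_mem ?_ (T.one_gr X')
    have := T.comp_gr hu hv
    rwa [add_zero] at this

/-- The cohomology group `H^k(X)` comes from `J`: some element of `J` acts on it as the identity. -/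
def FromJ (T : CorrTheory 𝒱 F) (J : ∀ X Y : 𝒱, Submodule ℚ (X ⟶ Y)) (X : 𝒱) (k : ℤ) : Prop :=
  ∃ y ∈ J X X, y ∈ T.gr X X 0 ∧ ∀ x ∈ T.deg X k, T.H.map y x = x

/-- `X` and `X'` are isomorphic up to `J`: there are correspondences of degree zero between them which are inverse to each other
modulo `J`. This is so if `X'` is the blow-up of `X` along a smooth subvariety whose motive is of the type considered in `J`,
for instance along points and curves. -/
def IsoMod (T : CorrTheory 𝒱 F) (J : ∀ X Y : 𝒱, Submodule ℚ (X ⟶ Y)) (X X' : 𝒱) : Prop :=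
  ∃ u ∈ T.gr X X' 0, ∃ v ∈ T.gr X' X 0, u ≫ v - 𝟙 X ∈ J X X ∧ v ≫ u - 𝟙 X' ∈ J X' X'

/-- The second cohomology of the total space `model A` vanishes on the geometric generic fibre, up to classes which come
from `J`: there is a correspondence `j` in `J`, of degree zero, such that `x - j x` restricts to zero on the geometric generic
fibre for all `x` in `H^2`. If `J` contains the correspondences which factor through curves and `k = ℂ` this holds if all
holomorphic two-forms of the total space restrict to zero on the general fibre. -/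
def Fibration.Transverse {𝒲 : Type u'} [Category.{v'} 𝒲] [Preadditive 𝒲] (Φ : Fibration T J 𝒲) (A : 𝒲) : Prop :=
  ∃ j ∈ J (Φ.model A) (Φ.model A), j ∈ T.gr (Φ.model A) (Φ.model A) 0 ∧
    ∀ x ∈ T.deg (Φ.model A) 2, x - T.H.map j x ∈ Φ.van A

theorem hasCK_of_transverse (hJ : T.FiniteIdeal J) {𝒲 : Type u'} [Category.{v'} 𝒲] [Preadditive 𝒲]
    (Φ : Fibration T J 𝒲) (A : 𝒲) (X : 𝒱) (h3 : 3 ≤ T.dim X) (hiso : IsoMod T J X (Φ.model A)) (htr : Φ.Transverse A)
    (hk : ∀ k, 3 ≤ k → k < T.dim X → FromJ T J (Φ.model A) k) : T.HasCK X := by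
  obtain ⟨u, hu, v, hv, huv, hvu⟩ := hiso
  obtain ⟨j, hj, hj0, h2⟩ := htr
  refine hasCK_of_fibration hJ Φ A X h3 hu hv huv hvu j hj hj0 h2 fun k h1 h2 => ?_
  obtain ⟨y, hy1, hy2, hy3⟩ := hk k h1 h2
  refine ⟨y, hy1, hy2, fun x hx => ?_⟩
  rw [hy3 x hx, T.H.map_id]
  rfl

/-- Chow-Künneth decompositions of varieties whose cycles of small dimension are supported on surfaces. -/
theorem hasCK_of_level (hJ : T.FiniteIdeal J) (X D : 𝒱) (c : ℕ) (h1 : 2 * (c : ℤ) + 1 ≤ T.dim X)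
    (h2 : T.dim X ≤ 2 * (c : ℤ) + 2) (S : ℕ → 𝒱)
    (a : ∀ i, X ⟶ S i) (b : ∀ i, S i ⟶ X) (hS : ∀ i < c, T.dim (S i) = 2) (ha : ∀ i < c, a i ∈ T.gr X (S i) (-i))
    (hb : ∀ i < c, b i ∈ T.gr (S i) X i) (u : X ⟶ D) (v : D ⟶ X) (hu : u ∈ T.gr X D (-c)) (hv : v ∈ T.gr D X c)
    (hsum : 𝟙 X = ∑ i ∈ Finset.range c, a i ≫ b i + u ≫ v) : T.HasCK X := by
  refine hasCK_of_surfaces hJ X c h1 S a b hS ha hb (u ≫ v) ?_ (fun i hi => ?_) (fun k hk => ?_)
  · rw [hsum]
    abel
  · have h : b i ≫ u ∈ J (S i) D := by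
      refine hJ.divisor _ _ (i + -c) ?_ (T.comp_gr (hb i hi) hu)
      rw [hS i hi]
      omega
    have h4 : (a i ≫ b i) ≫ u ≫ v = a i ≫ (b i ≫ u) ≫ v := by simp only [Category.assoc]
    rw [h4]
    exact hJ.comp_left _ _ (hJ.comp_right _ _ h)
  · obtain ⟨f, hf1, hf2, hf3⟩ := hJ.picard D
    refine ⟨u ≫ f ≫ v, hJ.comp_left _ _ (hJ.comp_right _ _ hf1), ?_, fun x hx => ?_⟩
    · have := T.comp_gr hu (T.comp_gr hf2 hv)
      rwa [zero_add, neg_add_cancel] at this
    · rw [map_comp_apply, map_comp_apply, map_comp_apply, hf3 (k + 2 * -c) (by omega) _ (T.deg_map hu x hx)]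

end Pool.Agent.L0h14.CK
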