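import Pool.Agent.L0h14.CK.Ring

/-!
# Triangular decompositions of one
-/

set_option autoImplicit false

namespace Pool.Agent.L0h14.CK

theorem tri_aux {Q : Type*} [Ring Q] {ι : Type*} [LinearOrder ι] (A : Finset ι) :
    ∀ (b : ι → Q) (u : Q), u * u = u → ∑ i ∈ A, b i = u → (∀ i ∈ A, u * b i = b i ∧ b i * u = b i) →
      (∀ i ∈ A, ∀ j ∈ A, i < j → b j * b i = 0) →
      ∃ x : ι → Q, ∑ i ∈ A, x i * b i = u ∧ (∀ i ∈ A, x i * b i * (x i * b i) = x i * b i) ∧
        ∀ i ∈ A, ∀ j ∈ A, i ≠ j → x i * b i * (x j * b j) = 0 := by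
  classical
  induction A using Finset.induction_on_min with
  | empty =>
    intro b u _ h _ _
    exact ⟨fun _ => 0, by simpa using h, by simp, by simp⟩
  | insert a A ha ih =>
    intro b u huu hs hu hb
    have haA : a ∉ A := fun h => lt_irrefl _ (ha a h)
    have hma : ∀ i ∈ A, i ∈ insert a A := fun i hi => Finset.mem_insert_of_mem hi
    have haa : a ∈ insert a A := Finset.mem_insert_self a A
    rw [Finset.sum_insert haA] at hs
    obtain ⟨hua, hau⟩ := hu a haa
    have h0 : ∀ i ∈ A, b i * b a = 0 := fun i hi => hb a haa i (hma i hi) (ha i hi)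
    have hbb : b a * b a = b a := by
      have := congrArg (· * b a) hs
      simp only [add_mul, Finset.sum_mul, hua] at this
      rw [Finset.sum_eq_zero h0, add_zero] at this
      exact this
    have hsum : ∑ i ∈ A, b i = u - b a := by rw [← hs]; abel
    have hu'u' : (u - b a) * (u - b a) = u - b a := by
      rw [sub_mul, mul_sub, mul_sub, huu, hua, hau, hbb]; abel
    have h1 : (1 - b a) * (u - b a) = u - b a := by
      rw [sub_mul, one_mul, mul_sub, hau, hbb, sub_self, sub_zero]
    have h2 : (u - b a) * (1 - b a) = u - b a := by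
      rw [mul_sub, mul_one, sub_mul, hua, hbb, sub_self, sub_zero]
    obtain ⟨x, hx1, hx2, hx3⟩ := ih (fun i => (1 - b a) * b i) (u - b a) hu'u'
      (by rw [← Finset.mul_sum, hsum, h1])
      (fun i hi => by
        obtain ⟨hi1, hi2⟩ := hu i (hma i hi)
        constructor
        · show (u - b a) * ((1 - b a) * b i) = (1 - b a) * b i
          rw [← mul_assoc, h2, sub_mul, hi1, sub_mul, one_mul]
        · show (1 - b a) * b i * (u - b a) = (1 - b a) * b i
          rw [mul_assoc, mul_sub (b i), hi2, h0 i hi, sub_zero])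
      (fun i hi j hj hij => by
        show (1 - b a) * b j * ((1 - b a) * b i) = 0
        have : b j * (1 - b a) = b j := by rw [mul_sub, mul_one, h0 j hj, sub_zero]
        rw [← mul_assoc ((1 - b a) * b j), mul_assoc (1 - b a) (b j) (1 - b a), this, mul_assoc,
          hb i (hma i hi) j (hma j hj) hij, mul_zero])
    -- `e i` for `i ∈ A`
    have hE1 : ∀ i ∈ A, (u - b a) * (x i * ((1 - b a) * b i)) = x i * ((1 - b a) * b i) := by
      intro i hi
      rw [← hx1, Finset.sum_mul, Finset.sum_eq_single_of_mem i hi fun j hj hji => hx3 j hj i hi hji, hx2 i hi]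
    have hE2 : ∀ i ∈ A, x i * ((1 - b a) * b i) * (u - b a) = x i * ((1 - b a) * b i) := by
      intro i hi
      rw [← hx1, Finset.mul_sum, Finset.sum_eq_single_of_mem i hi fun j hj hji => hx3 i hi j hj hji.symm, hx2 i hi]
    have hb0 : b a * (u - b a) = 0 := by rw [mul_sub, hau, hbb, sub_self]
    have hb0' : (u - b a) * b a = 0 := by rw [sub_mul, hua, hbb, sub_self]
    have hE3 : ∀ i ∈ A, b a * (x i * ((1 - b a) * b i)) = 0 := by
      intro i hi
      rw [← hE1 i hi, ← mul_assoc, hb0, zero_mul]
    have hE4 : ∀ i ∈ A, x i * ((1 - b a) * b i) * b a = 0 := by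
      intro i hi
      rw [← hE2 i hi, mul_assoc _ _ (b a), hb0', mul_zero]
    refine ⟨fun i => if i = a then 1 else x i * (1 - b a), ?_, ?_, ?_⟩
    · rw [Finset.sum_insert haA]
      show (if a = a then (1 : Q) else _) * b a + ∑ i ∈ A, (if i = a then 1 else x i * (1 - b a)) * b i = u
      rw [if_pos rfl, one_mul]
      have : ∀ i ∈ A, (if i = a then 1 else x i * (1 - b a)) * b i = x i * ((1 - b a) * b i) := by
        intro i hi
        rw [if_neg (fun h : i = a => haA (h ▸ hi)), mul_assoc]
      rw [Finset.sum_congr rfl this, hx1]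
      abel
    · intro i hi
      rcases Finset.mem_insert.mp hi with rfl | hi
      · simp only [if_true, one_mul, hbb]
      · have hne : i ≠ a := fun h => haA (h ▸ hi)
        simp only [if_neg hne, mul_assoc (x i) (1 - b a) (b i)]
        exact hx2 i hi
    · intro i hi j hj hij
      rcases Finset.mem_insert.mp hi with hia | hi' <;> rcases Finset.mem_insert.mp hj with hja | hj'
      · exact absurd (hia.trans hja.symm) hij
      · have hne : j ≠ a := fun h => haA (h ▸ hj')
        simp only [if_pos hia, one_mul, if_neg hne, mul_assoc (x j) _ (b j)]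
        rw [hia]
        exact hE3 j hj'
      · have hne : i ≠ a := fun h => haA (h ▸ hi')
        simp only [if_pos hja, one_mul, if_neg hne, mul_assoc (x i) _ (b i)]
        rw [hja]
        exact hE4 i hi'
      · have hne : i ≠ a := fun h => haA (h ▸ hi')
        have hne' : j ≠ a := fun h => haA (h ▸ hj')
        simp only [if_neg hne, if_neg hne', mul_assoc (x i) (1 - b a) (b i), mul_assoc (x j) (1 - b a) (b j)]
        exact hx3 i hi' j hj' hij

/-- If the sum of the `b i` is one modulo `J` and `b j * b i ∈ J` for `i < j` there are multiples `x i * b i` which are orthogonal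
idempotents with sum one modulo `J`. -/
theorem tri {R : Type*} [Ring R] {ι : Type*} [Fintype ι] [LinearOrder ι] (J : AddSubgroup R)
    (hl : ∀ r : R, ∀ x ∈ J, r * x ∈ J) (hr : ∀ r : R, ∀ x ∈ J, x * r ∈ J) (b : ι → R) (h1 : 1 - ∑ i, b i ∈ J)
    (h2 : ∀ i j, i < j → b j * b i ∈ J) :
    ∃ x : ι → R, 1 - ∑ i, x i * b i ∈ J ∧ (∀ i, x i * b i * (x i * b i) - x i * b i ∈ J) ∧
      ∀ i j, i ≠ j → x i * b i * (x j * b j) ∈ J := by
  classical
  let N : TwoSidedIdeal R := TwoSidedIdeal.mk' (J : Set R) J.zero_mem (fun ha hb => J.add_mem ha hb)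
    (fun ha => J.neg_mem ha) (fun {a b} hb => hl a b hb) (fun {a b} ha => hr b a ha)
  have hN : ∀ z : R, z ∈ N ↔ z ∈ J := by
    intro z
    simp only [N, TwoSidedIdeal.mem_mk', SetLike.mem_coe]
  let q : R →+* N.ringCon.Quotient := N.ringCon.mk'
  have hq : ∀ a c : R, q a = q c ↔ a - c ∈ J := by
    intro a c
    rw [← hN, TwoSidedIdeal.mem_iff, ← sub_eq_zero, ← map_sub]
    show ((a - c : R) : N.ringCon.Quotient) = ((0 : R) : N.ringCon.Quotient) ↔ _
    exact RingCon.eq _
  have hq0 : ∀ a : R, q a = 0 ↔ a ∈ J := by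
    intro a
    rw [← map_zero q, hq, sub_zero]
  have hsurj : Function.Surjective q := N.ringCon.mk'_surjective
  obtain ⟨x, hx1, hx2, hx3⟩ := tri_aux (Q := N.ringCon.Quotient) (Finset.univ : Finset ι) (fun i => q (b i)) 1 (one_mul _)
    (by
      rw [← map_sum, ← map_one q, eq_comm, hq]
      exact h1)
    (fun i _ => ⟨one_mul _, mul_one _⟩)
    (fun i _ j _ hij => by
      show q _ * q _ = 0
      rw [← map_mul, hq0]
      exact h2 i j hij)
  choose y hy using fun i => hsurj (x i)
  refine ⟨y, ?_, fun i => ?_, fun i j hij => ?_⟩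
  · rw [← hq, map_one, map_sum, ← hx1]
    exact Finset.sum_congr rfl fun i _ => by rw [map_mul, hy]
  · rw [← hq, map_mul, map_mul, hy]
    exact hx2 i (Finset.mem_univ i)
  · rw [← hq0, map_mul, map_mul, map_mul, hy, hy]
    exact hx3 i (Finset.mem_univ i) j (Finset.mem_univ j) hij

end Pool.Agent.L0h14.CK
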