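import Pool.Agent.L0h14.CK.Defs
import Pool.Agent.L0h14.CK.Tri

/-!
# A criterion for the existence of Chow-Künneth decompositions
-/

universe u v w

open CategoryTheory

set_option autoImplicit false

namespace Pool.Agent.L0h14.CK

variable {𝒱 : Type u} [Category.{v} 𝒱] [Preadditive 𝒱] [Linear ℚ 𝒱] {F : Type w} [Field F]
variable (T : CorrTheory 𝒱 F)

/-- The correspondences of degree zero from `X` to itself. -/
def R0 (X : 𝒱) : Subalgebra ℚ (End X) where
  carrier := {f | f ∈ T.gr X X 0}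
  mul_mem' := by
    intro a b ha hb
    have := T.comp_gr hb ha
    rwa [add_zero] at this
  one_mem' := T.one_gr X
  add_mem' := fun ha hb => (T.gr X X 0).add_mem ha hb
  zero_mem' := (T.gr X X 0).zero_mem
  algebraMap_mem' := fun r => by
    have : algebraMap ℚ (End X) r = r • (1 : End X) := Algebra.algebraMap_eq_smul_one r
    rw [this]
    exact (T.gr X X 0).smul_mem r (T.one_gr X)

theorem mem_R0 {X : 𝒱} {f : End X} : f ∈ R0 T X ↔ f ∈ T.gr X X 0 := Iff.rfl

/-- The action on `H^i(X)`. -/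
def rho (X : 𝒱) (i : ℤ) : R0 T X →+* Module.End F (T.deg X i) where
  toFun f := (T.H.map (f : End X)).hom.restrict (fun x hx => by
    have := T.deg_map f.2 x hx
    rwa [mul_zero, add_zero] at this)
  map_one' := by
    ext x
    show (T.H.map (𝟙 X)) (x : T.H.obj X) = x
    rw [T.H.map_id]
    rfl
  map_mul' := by
    intro a b
    ext x
    show (T.H.map ((b : End X) ≫ (a : End X))) (x : T.H.obj X) = (T.H.map (a : End X)) ((T.H.map (b : End X)) x)
    rw [T.H.map_comp]
    rfl
  map_zero' := by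
    have := T.additive
    ext x
    show (T.H.map (0 : X ⟶ X)) (x : T.H.obj X) = 0
    rw [T.H.map_zero]
    rfl
  map_add' := by
    have := T.additive
    intro a b
    ext x
    show (T.H.map ((a.1 : X ⟶ X) + (b.1 : X ⟶ X))) (x : T.H.obj X) = T.H.map (a.1 : X ⟶ X) x + T.H.map (b.1 : X ⟶ X) x
    rw [T.H.map_add]
    rfl

theorem rho_apply (X : 𝒱) (i : ℤ) (f : R0 T X) (x : T.deg X i) :
    ((rho T X i f x : T.deg X i) : T.H.obj X) = T.H.map (f : End X) (x : T.H.obj X) := rfl

variable {T}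
variable {J : ∀ X Y : 𝒱, Submodule ℚ (X ⟶ Y)}

/-- The part of `J(X, X)` of degree zero. -/
def J0 (T : CorrTheory 𝒱 F) (J : ∀ X Y : 𝒱, Submodule ℚ (X ⟶ Y)) (X : 𝒱) : AddSubgroup (R0 T X) where
  carrier := {f | (f.1 : X ⟶ X) ∈ J X X}
  add_mem' := fun ha hb => (J X X).add_mem ha hb
  zero_mem' := (J X X).zero_mem
  neg_mem' := fun ha => (J X X).neg_mem ha

theorem mem_J0 {X : 𝒱} {f : R0 T X} : f ∈ J0 T J X ↔ (f.1 : X ⟶ X) ∈ J X X := Iff.rfl

theorem map_eq_zero_of (X : 𝒱) (f : X ⟶ X) (h : ∀ i ∈ Finset.Icc 0 (2 * T.dim X), ∀ x ∈ T.deg X i, T.H.map f x = 0) :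
    T.H.map f = 0 := by
  ext x
  have hx : x ∈ ⨆ j, T.deg X j := by rw [T.deg_top X]; exact Submodule.mem_top
  have hle : (⨆ j, T.deg X j) ≤ LinearMap.ker (T.H.map f).hom := by
    refine iSup_le fun j y hy => ?_
    rw [LinearMap.mem_ker]
    by_cases hj : j ∈ Finset.Icc 0 (2 * T.dim X)
    · exact h j hj y hy
    · have : j < 0 ∨ 2 * T.dim X < j := by
        rw [Finset.mem_Icc] at hj
        omega
      rw [T.deg_bot X j this] at hy
      rw [(Submodule.mem_bot F).mp hy, map_zero]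
  exact hle hx

/-- If the diagonal of `X` is a sum of correspondences `β i` of degree zero, which act on `H^k(X)`, `k ≠ i`, as elements of
`J`, and if the compositions of `β i` and `β j`, `i < j`, which raise the weight, belong to `J`, then `X` has a Chow-Künneth
decomposition. -/
theorem hasCK_of_triangular (hJ : T.FiniteIdeal J) (X : 𝒱) (β : ℤ → (X ⟶ X)) (h0 : ∀ i, β i ∈ T.gr X X 0)
    (hs : ∑ i ∈ Finset.Icc 0 (2 * T.dim X), β i = 𝟙 X) (hup : ∀ i j, i < j → β i ≫ β j ∈ J X X)
    (hact : ∀ i k, k ≠ i → ∃ y ∈ J X X, y ∈ T.gr X X 0 ∧ ∀ x ∈ T.deg X k, T.H.map (β i) x = T.H.map y x) :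
    T.HasCK X := by
  classical
  let ι := ↥(Finset.Icc (0 : ℤ) (2 * T.dim X))
  have hadd := T.additive
  have hfd := T.finite
  let b : ι → R0 T X := fun i => ⟨β i, h0 i⟩
  have hl : ∀ r : R0 T X, ∀ x ∈ J0 T J X, r * x ∈ J0 T J X := fun r x hx => hJ.comp_right _ _ hx
  have hr : ∀ r : R0 T X, ∀ x ∈ J0 T J X, x * r ∈ J0 T J X := fun r x hx => hJ.comp_left _ _ hx
  obtain ⟨x, hx1, hx2, hx3⟩ := tri (J0 T J X) hl hr b
    (by
      have : (1 : R0 T X) - ∑ i, b i = 0 := by
        rw [sub_eq_zero]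
        apply Subtype.ext
        push_cast
        rw [Finset.univ_eq_attach, Finset.sum_attach (Finset.Icc (0 : ℤ) (2 * T.dim X)) (fun i => (β i : End X))]
        exact hs.symm
      rw [this]
      exact (J0 T J X).zero_mem)
    (fun i j hij => hup i j hij)
  obtain ⟨p, hp1, hp2, -⟩ := ck_ring (F := F) (R := R0 T X) (ι := ι) (V := fun i : ι => T.deg X i)
    (fun i => rho T X i) (J0 T J X) hl hr
    (fun y hy => by
      obtain ⟨P, hP, hPy⟩ := hJ.algebraic X y.1 hy y.2
      refine ⟨P, hP, ?_⟩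
      apply Subtype.ext
      have h1 := Polynomial.aeval_algHom_apply (R0 T X).val y P
      exact h1.symm.trans hPy)
    (fun y hy hy0 => by
      have h1 : T.H.map (y.1 : X ⟶ X) = 0 := by
        refine map_eq_zero_of X _ fun i hi z hz => ?_
        have := congrArg (fun φ => ((φ ⟨z, hz⟩ : T.deg X i) : T.H.obj X)) (hy0 ⟨i, hi⟩)
        exact this
      obtain ⟨n, hn⟩ := hJ.nilpotent X y.1 hy y.2 h1
      exact ⟨n, Subtype.ext (by rw [SubmonoidClass.coe_pow]; exact hn)⟩)
    (fun y hy i => by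
      obtain ⟨g, hg1, hg2, hg3⟩ := hJ.kunneth X y.1 hy y.2 i
      refine ⟨⟨g, hg2⟩, hg1, ?_, fun k hk => ?_⟩
      · ext z
        have := hg3 i z z.2
        rw [if_pos rfl] at this
        exact this
      · ext z
        have := hg3 k z z.2
        rw [if_neg (fun h => hk (Subtype.ext h.symm))] at this
        exact this)
    (fun i => x i * b i) hx3 hx2 hx1
    (fun i k hki => by
      obtain ⟨y, hy1, hy2, hy3⟩ := hact i k (fun h => hki (Subtype.ext h))
      refine ⟨x i * ⟨y, hy2⟩, hl _ _ hy1, ?_⟩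
      rw [map_mul, map_mul]
      congr 1
      ext z
      exact hy3 z z.2)
  refine ⟨fun i => if h : i ∈ Finset.Icc (0 : ℤ) (2 * T.dim X) then (p ⟨i, h⟩).1 else 0, fun i => ?_, fun i => ?_,
    fun i j hij => ?_, fun i hi => ?_, ?_, fun i j z hz => ?_⟩
  · dsimp only
    split_ifs with h
    · exact (p ⟨i, h⟩).2
    · exact (T.gr X X 0).zero_mem
  · dsimp only
    split_ifs with h
    · exact congrArg Subtype.val (hp1.idem ⟨i, h⟩).eq
    · simp
  · dsimp only
    split_ifs with h h'
    · have hne : (⟨j, h'⟩ : ι) ≠ ⟨i, h⟩ := fun e => hij (congrArg Subtype.val e).symm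
      exact congrArg Subtype.val (hp1.ortho hne)
    · simp
    · simp
    · simp
  · have : i ∉ Finset.Icc (0 : ℤ) (2 * T.dim X) := by rw [Finset.mem_Icc]; omega
    exact dif_neg this
  · have h1 := congrArg Subtype.val hp1.complete
    push_cast at h1
    rw [← Finset.sum_attach]
    rw [Finset.univ_eq_attach] at h1
    refine Eq.trans (Finset.sum_congr rfl fun i _ => ?_) h1
    rw [dif_pos i.2]
  · beta_reduce
    by_cases hj : j ∈ Finset.Icc (0 : ℤ) (2 * T.dim X)
    · by_cases hij : i = j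
      · subst hij
        rw [if_pos rfl, dif_pos hj]
        have h1 := congrArg (rho T X i) hp1.complete
        rw [map_sum, map_one, Finset.sum_eq_single (⟨i, hj⟩ : ι) (fun k _ hk => hp2 k ⟨i, hj⟩ (fun h => hk h.symm))
          (fun h => absurd (Finset.mem_univ _) h)] at h1
        exact congrArg (fun φ => ((φ ⟨z, hz⟩ : T.deg X i) : T.H.obj X)) h1
      · rw [if_neg hij]
        split_ifs with h
        · have h1 := hp2 ⟨i, h⟩ ⟨j, hj⟩ (fun e => hij (congrArg Subtype.val e).symm)
          exact congrArg (fun φ => ((φ ⟨z, hz⟩ : T.deg X j) : T.H.obj X)) h1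
        · rw [T.H.map_zero]
          rfl
    · have : j < 0 ∨ 2 * T.dim X < j := by
        rw [Finset.mem_Icc] at hj
        omega
      have hz' := hz
      rw [T.deg_bot X j this] at hz'
      rw [(Submodule.mem_bot F).mp hz']
      split_ifs <;> simp

end Pool.Agent.L0h14.CK
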