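import Mathlib

/-!
# Lifting idempotents modulo an ideal of algebraic elements, with control of a cohomological action

`R` is a ring over `ℚ`, `ρ i : R → End (V i)` are finitely many actions on finite-dimensional vector spaces (the action of
the endomorphisms of a motive on its cohomology groups), and `J` is a two-sided ideal (the endomorphisms which factor through
finite-dimensional motives).
-/

set_option autoImplicit false

namespace Pool.Agent.L0h14.CK

open Polynomial

section
variable {R : Type*} [Ring R] [Algebra ℚ R]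

/-- An algebraic element `x` has a power which is multiplied by an idempotent polynomial in `x` without constant term. -/
theorem exists_idem {x : R} {p : ℚ[X]} (hp : p ≠ 0) (h : aeval x p = 0) :
    ∃ (m : ℕ) (a : ℚ[X]), m ≠ 0 ∧ IsIdempotentElem (x ^ m * aeval x a) ∧
      x ^ m * (x ^ m * aeval x a) = x ^ m := by
  obtain ⟨q, hq1, hq2⟩ := exists_eq_pow_rootMultiplicity_mul_and_not_dvd p hp (0 : ℚ)
  rw [map_zero, sub_zero] at hq1 hq2
  set n := rootMultiplicity (0 : ℚ) p with hn
  have hcop : IsCoprime (X ^ (n + 1) : ℚ[X]) q := by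
    apply IsCoprime.pow_left
    exact (Polynomial.irreducible_X.coprime_iff_not_dvd).mpr hq2
  obtain ⟨a, b, hab⟩ := hcop
  have hz : aeval x (X ^ (n + 1) * q : ℚ[X]) = 0 := by
    have : (X ^ (n + 1) * q : ℚ[X]) = X * p := by
      conv_rhs => rw [hq1]
      ring
    rw [this, map_mul, h, mul_zero]
  have hc : ∀ u w : ℚ[X], aeval x u * aeval x w = aeval x w * aeval x u := fun u w => by
    rw [← map_mul, ← map_mul, mul_comm]
  have hxm : x ^ (n + 1) = aeval x (X ^ (n + 1) : ℚ[X]) := by simp
  have hkey : (X ^ (n + 1) * a : ℚ[X]) = 1 - b * q := by linear_combination hab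
  refine ⟨n + 1, a, Nat.succ_ne_zero n, ?_, ?_⟩
  · rw [hxm, ← map_mul]
    unfold IsIdempotentElem
    rw [← map_mul]
    have : (X ^ (n + 1) * a * (X ^ (n + 1) * a) : ℚ[X]) = X ^ (n + 1) * a - (X ^ (n + 1) * q) * (a * b) := by
      linear_combination (X ^ (n + 1) * a) * hkey
    rw [this, map_sub, map_mul (aeval x) (X ^ (n + 1) * q), hz, zero_mul, sub_zero]
  · rw [hxm, ← map_mul, ← map_mul]
    have : (X ^ (n + 1) * (X ^ (n + 1) * a) : ℚ[X]) = X ^ (n + 1) - (X ^ (n + 1) * q) * b := by
      linear_combination (X ^ (n + 1)) * hkey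
    rw [this, map_sub, map_mul (aeval x) (X ^ (n + 1) * q), hz, zero_mul, sub_zero]

end

section
variable {F : Type*} [Field F] {R : Type*} [Ring R] [Algebra ℚ R] {ι : Type*} [Fintype ι]
  {V : ι → Type*} [∀ i, AddCommGroup (V i)] [∀ i, Module F (V i)] [∀ i, FiniteDimensional F (V i)]
  (ρ : ∀ i, R →+* Module.End F (V i))

/-- There is an idempotent `e` of `J` such that all elements of `J` which are orthogonal to `e` are nilpotent. -/
theorem exists_max (J : AddSubgroup R) (hr : ∀ r : R, ∀ x ∈ J, x * r ∈ J)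
    (halg : ∀ x ∈ J, ∃ p : ℚ[X], p ≠ 0 ∧ aeval x p = 0)
    (hnil : ∀ x ∈ J, (∀ i, ρ i x = 0) → IsNilpotent x) :
    ∃ e ∈ J, IsIdempotentElem e ∧ ∀ x ∈ J, e * x = 0 → x * e = 0 → IsNilpotent x := by
  classical
  let rk : R → ℕ := fun e => ∑ i, Module.finrank F (LinearMap.range (ρ i e))
  let P : ℕ → Prop := fun n => ∃ e ∈ J, IsIdempotentElem e ∧ rk e = n
  have hP0 : P (rk 0) := ⟨0, J.zero_mem, by simp [IsIdempotentElem], rfl⟩
  have hb : ∀ n, P n → n ≤ ∑ i, Module.finrank F (V i) := by
    rintro n ⟨e, _, _, rfl⟩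
    exact Finset.sum_le_sum fun i _ => Submodule.finrank_le _
  obtain ⟨e, heJ, hee, her⟩ := Nat.findGreatest_spec (P := P) (hb _ hP0) hP0
  have hmax : ∀ f ∈ J, IsIdempotentElem f → rk f ≤ rk e := by
    intro f hf hff
    rw [her]
    exact Nat.le_findGreatest (hb _ ⟨f, hf, hff, rfl⟩) ⟨f, hf, hff, rfl⟩
  refine ⟨e, heJ, hee, fun x hx hex hxe => ?_⟩
  obtain ⟨p, hp, hpx⟩ := halg x hx
  obtain ⟨m, a, hm, hid, hpow⟩ := exists_idem hp hpx
  set f := x ^ m * aeval x a with hf
  obtain ⟨m', rfl⟩ := Nat.exists_eq_succ_of_ne_zero hm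
  have hfJ : f ∈ J := by
    rw [hf, pow_succ']
    exact hr _ _ (hr _ _ hx)
  have hcomm : f = aeval x a * x ^ (m' + 1) := by
    have : x ^ (m' + 1) = aeval x (X ^ (m' + 1) : ℚ[X]) := by simp
    rw [hf, Nat.succ_eq_add_one, this, ← map_mul, ← map_mul, mul_comm]
  have hef : e * f = 0 := by
    rw [hf, Nat.succ_eq_add_one, pow_succ', ← mul_assoc, ← mul_assoc, hex, zero_mul, zero_mul]
  have hfe : f * e = 0 := by
    rw [hcomm, pow_succ, mul_assoc, mul_assoc, hxe, mul_zero, mul_zero]
  have hsum : IsIdempotentElem (e + f) := by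
    unfold IsIdempotentElem
    rw [add_mul, mul_add, mul_add, hef, hfe, hee.eq, hid.eq, add_zero, zero_add]
  have hρf : ∀ i, ρ i f = 0 := by
    intro i
    by_contra hne
    have hle : ∀ k, LinearMap.range (ρ k e) ≤ LinearMap.range (ρ k (e + f)) := by
      intro k
      rintro _ ⟨v, rfl⟩
      refine ⟨ρ k e v, ?_⟩
      have : (e + f) * e = e := by rw [add_mul, hee.eq, hfe, add_zero]
      rw [← Module.End.mul_apply, ← map_mul, this]
    have hlt : LinearMap.range (ρ i e) < LinearMap.range (ρ i (e + f)) := by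
      refine lt_of_le_of_ne (hle i) fun heq => hne ?_
      ext v
      have h1 : ρ i f v ∈ LinearMap.range (ρ i (e + f)) := by
        refine ⟨ρ i f v, ?_⟩
        have : (e + f) * f = f := by rw [add_mul, hid.eq, hef, zero_add]
        rw [← Module.End.mul_apply, ← map_mul, this]
      rw [← heq] at h1
      obtain ⟨w, hw⟩ := h1
      have h2 : ρ i f (ρ i f v) = 0 := by
        rw [← hw, ← Module.End.mul_apply, ← map_mul, hfe, map_zero, LinearMap.zero_apply]
      rw [← Module.End.mul_apply, ← map_mul, hid.eq] at h2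
      simpa using h2
    have hlt' : rk e < rk (e + f) :=
      Finset.sum_lt_sum (fun k _ => Submodule.finrank_mono (hle k))
        ⟨i, Finset.mem_univ i, Submodule.finrank_lt_finrank_of_lt hlt⟩
    exact absurd (hmax _ (J.add_mem heJ hfJ) hsum) (not_le.mpr hlt')
  obtain ⟨n, hn⟩ := hnil f hfJ hρf
  have hf0 : f = 0 := by
    rcases Nat.eq_zero_or_pos n with h0 | h0
    · subst h0
      rw [pow_zero] at hn
      rw [← mul_one f, hn, mul_zero]
    · obtain ⟨n', rfl⟩ := Nat.exists_eq_succ_of_ne_zero h0.ne'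
      rwa [hid.pow_succ_eq] at hn
  refine ⟨m' + 1, ?_⟩
  rw [← hpow, hf0, mul_zero]

/-- If `E i` are orthogonal idempotents with sum one modulo `J` and `E i` acts on `V k`, `k ≠ i`, as an element of `J`, then
there are orthogonal idempotents with sum one, such that the `i`-th acts on `V k` by zero if `k ≠ i`. -/
theorem ck_ring (J : AddSubgroup R) (hl : ∀ r : R, ∀ x ∈ J, r * x ∈ J) (hr : ∀ r : R, ∀ x ∈ J, x * r ∈ J)
    (halg : ∀ x ∈ J, ∃ p : ℚ[X], p ≠ 0 ∧ aeval x p = 0)
    (hnil : ∀ x ∈ J, (∀ i, ρ i x = 0) → IsNilpotent x)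
    (hkun : ∀ x ∈ J, ∀ i, ∃ y ∈ J, ρ i y = ρ i x ∧ ∀ k, k ≠ i → ρ k y = 0)
    (E : ι → R) (hE : ∀ i k, i ≠ k → E i * E k ∈ J) (hE2 : ∀ i, E i * E i - E i ∈ J) (hsum : 1 - ∑ i, E i ∈ J)
    (hact : ∀ i k, k ≠ i → ∃ y ∈ J, ρ k (E i) = ρ k y) :
    ∃ p : ι → R, CompleteOrthogonalIdempotents p ∧ (∀ i k, k ≠ i → ρ k (p i) = 0) ∧ ∀ i, p i - E i ∈ J := by
  classical
  obtain ⟨e, heJ, hee, hnile⟩ := exists_max ρ J hr halg hnil
  choose! y hyJ hy1 hy2 using hkun e heJ
  set e' : R := 1 - e with he'
  have hee0 : e * e' = 0 := by rw [he', mul_sub, mul_one, hee.eq, sub_self]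
  have hee0' : e' * e = 0 := by rw [he', sub_mul, one_mul, hee.eq, sub_self]
  have hee' : e' * e' = e' := by rw [he', sub_mul, one_mul, ← he', hee0, sub_zero]
  let S : Subring R := Subring.centralizer {e}
  have hmemS : ∀ z : R, z ∈ S ↔ e * z = z * e := by
    intro z
    simp only [S, Subring.mem_centralizer_iff, Set.mem_singleton_iff, forall_eq]
  -- the nil ideal
  let N : TwoSidedIdeal S := TwoSidedIdeal.mk' {z : S | e' * (z : R) ∈ J ∧ ∀ k, ρ k (e * (z : R)) = 0}
    (by simp [J.zero_mem])
    (by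
      rintro ⟨a, ha⟩ ⟨b, hb⟩ ⟨h1, h2⟩ ⟨h3, h4⟩
      refine ⟨?_, fun k => ?_⟩
      · show e' * (a + b) ∈ J
        rw [mul_add]
        exact J.add_mem h1 h3
      · show ρ k (e * (a + b)) = 0
        rw [mul_add, map_add]
        have := h2 k
        have := h4 k
        simp_all)
    (by
      rintro ⟨a, ha⟩ ⟨h1, h2⟩
      refine ⟨?_, fun k => ?_⟩
      · show e' * (-a) ∈ J
        rw [mul_neg]
        exact J.neg_mem h1
      · show ρ k (e * (-a)) = 0
        have := h2 k
        rw [mul_neg, map_neg]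
        simp_all)
    (by
      rintro ⟨a, ha⟩ ⟨b, hb⟩ ⟨h1, h2⟩
      rw [hmemS] at ha hb
      refine ⟨?_, fun k => ?_⟩
      · show e' * (a * b) ∈ J
        have : e' * (a * b) = a * (e' * b) := by
          rw [he', sub_mul, sub_mul, one_mul, one_mul, ← mul_assoc, ha, mul_assoc, mul_sub]
        rw [this]
        exact hl _ _ h1
      · show ρ k (e * (a * b)) = 0
        have h2k : ρ k (e * b) = 0 := h2 k
        have : e * (a * b) = a * (e * b) := by
          rw [← mul_assoc, ha, mul_assoc]
        rw [this, map_mul, h2k, mul_zero])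
    (by
      rintro ⟨a, ha⟩ ⟨b, hb⟩ ⟨h1, h2⟩
      refine ⟨?_, fun k => ?_⟩
      · show e' * (a * b) ∈ J
        rw [← mul_assoc]
        exact hr _ _ h1
      · show ρ k (e * (a * b)) = 0
        have h2k : ρ k (e * a) = 0 := h2 k
        rw [← mul_assoc, map_mul, h2k, zero_mul])
  have hN : ∀ z : S, z ∈ N ↔ (e' * (z : R) ∈ J ∧ ∀ k, ρ k (e * (z : R)) = 0) := by
    intro z
    simp only [N, TwoSidedIdeal.mem_mk', Set.mem_ofPred_eq]
  let q : S →+* N.ringCon.Quotient := N.ringCon.mk'
  have hq : ∀ a b : S, q a = q b ↔ a - b ∈ N := by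
    intro a b
    rw [TwoSidedIdeal.mem_iff, ← sub_eq_zero, ← map_sub]
    show ((a - b : S) : N.ringCon.Quotient) = ((0 : S) : N.ringCon.Quotient) ↔ _
    exact RingCon.eq _
  have hker : ∀ z ∈ RingHom.ker q, IsNilpotent z := by
    intro z hz
    have hz' : z ∈ N := by
      have := (hq z 0).mp (by rw [map_zero]; exact hz)
      rwa [sub_zero] at this
    obtain ⟨h1, h2⟩ := (hN z).mp hz'
    have hzc : e * (z : R) = z * e := (hmemS _).mp z.2
    have hn1 : IsNilpotent (e * (z : R)) := hnil _ (hr _ _ heJ) h2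
    have hn2 : IsNilpotent (e' * (z : R)) := by
      refine hnile _ h1 ?_ ?_
      · rw [← mul_assoc, hee0, zero_mul]
      · rw [mul_assoc, ← hzc, ← mul_assoc, hee0', zero_mul]
    have hcm : Commute (e * (z : R)) (e' * z) := by
      show e * (z : R) * (e' * z) = e' * z * (e * z)
      have ha : e * (z : R) * (e' * z) = 0 := by
        rw [hzc, mul_assoc, ← mul_assoc e, hee0, zero_mul, mul_zero]
      have hb : e' * (z : R) * (e * z) = 0 := by
        rw [mul_assoc, ← mul_assoc (z : R), ← hzc, mul_assoc, ← mul_assoc, hee0', zero_mul]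
      rw [ha, hb]
    have hzz : (z : R) = e * z + e' * z := by rw [he', sub_mul, one_mul]; abel
    have hnz : IsNilpotent (z : R) := by
      rw [hzz]
      exact hcm.isNilpotent_add hn1 hn2
    obtain ⟨n, hn⟩ := hnz
    exact ⟨n, Subtype.ext (by simpa using hn)⟩
  -- the approximate idempotents
  let w : ι → R := fun i => e' * E i * e' + e * y i * e
  have hwS : ∀ i, w i ∈ S := by
    intro i
    rw [hmemS]
    show e * (e' * E i * e' + e * y i * e) = (e' * E i * e' + e * y i * e) * e
    have h1 : e * (e' * E i * e') = 0 := by rw [← mul_assoc, ← mul_assoc, hee0, zero_mul, zero_mul]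
    have h2 : e' * E i * e' * e = 0 := by rw [mul_assoc, hee0', mul_zero]
    have h3 : e * (e * y i * e) = e * y i * e := by rw [← mul_assoc, ← mul_assoc, hee.eq]
    have h4 : e * y i * e * e = e * y i * e := by rw [mul_assoc, hee.eq]
    rw [mul_add, add_mul, h1, h2, h3, h4]
  have hew : ∀ i, e * w i = e * y i * e := by
    intro i
    show e * (e' * E i * e' + e * y i * e) = _
    rw [mul_add, ← mul_assoc e (e' * E i), ← mul_assoc e e', hee0, zero_mul, zero_mul, zero_add, ← mul_assoc, ← mul_assoc, hee.eq]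
  have he'w : ∀ i, e' * w i = e' * E i * e' := by
    intro i
    show e' * (e' * E i * e' + e * y i * e) = _
    rw [mul_add, ← mul_assoc e' (e * y i), ← mul_assoc e' e, hee0', zero_mul, zero_mul, add_zero, ← mul_assoc, ← mul_assoc, hee']
  have hcong : ∀ a b : R, a - b ∈ J → ∀ r s : R, r * a * s - r * b * s ∈ J := by
    intro a b hab r s
    have : r * a * s - r * b * s = r * (a - b) * s := by noncomm_ring
    rw [this]
    exact hr _ _ (hl _ _ hab)
  have hρe : ∀ k i, ρ k (e * y i * e) = if k = i then ρ k e else 0 := by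
    intro k i
    rw [map_mul, map_mul]
    split_ifs with h
    · subst h
      rw [hy1, ← map_mul, ← map_mul, hee.eq, hee.eq]
    · rw [hy2 i k h, mul_zero, zero_mul]
  have hfin : Finite ι := inferInstance
  have hcomp : CompleteOrthogonalIdempotents (fun i => q ⟨w i, hwS i⟩) := by
    refine ⟨⟨fun i => ?_, fun i k hik => ?_⟩, ?_⟩
    · show q _ * q _ = q _
      rw [← map_mul, hq, hN]
      refine ⟨?_, fun k => ?_⟩
      · show e' * (w i * w i - w i) ∈ J
        have h1 : e' * (w i * w i - w i) = e' * E i * e' * E i * e' - e' * E i * e' := by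
          have : w i * e = e * w i := ((hmemS _).mp (hwS i)).symm
          have hwe' : e' * E i * e' * w i = e' * E i * (e' * w i) := by rw [mul_assoc]
          rw [mul_sub, ← mul_assoc, he'w, hwe', he'w]
          noncomm_ring
        rw [h1]
        have h2 : e' * E i * e' * E i * e' - e' * E i * e' =
            e' * (E i * E i - E i) * e' - e' * E i * e * E i * e' := by
          rw [he']; noncomm_ring
        rw [h2]
        refine J.sub_mem (hr _ _ (hl _ _ (hE2 i))) (hr _ _ (hr _ _ (hl _ _ heJ)))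
      · show ρ k (e * (w i * w i - w i)) = 0
        have h1 : e * (w i * w i - w i) = e * y i * e * (e * y i * e) - e * y i * e := by
          have : w i * e = e * w i := ((hmemS _).mp (hwS i)).symm
          have h5 : e * w i * w i = e * w i * (e * w i) := by
            rw [← mul_assoc (e * w i) e, mul_assoc e (w i) e, this, ← mul_assoc e e, hee.eq]
          rw [mul_sub, ← mul_assoc, h5, hew]
        rw [h1, map_sub, map_mul, hρe]
        split_ifs with h
        · rw [← map_mul, hee.eq, sub_self]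
        · simp
    · show q _ * q _ = 0
      rw [← map_mul, ← map_zero q, hq, sub_zero, hN]
      refine ⟨?_, fun l => ?_⟩
      · show e' * (w i * w k) ∈ J
        have h1 : e' * (w i * w k) = e' * (E i * E k) * e' - e' * E i * e * E k * e' := by
          have hwe' : e' * E i * e' * w k = e' * E i * (e' * w k) := by rw [mul_assoc]
          rw [← mul_assoc, he'w, hwe', he'w, he']
          noncomm_ring
        rw [h1]
        exact J.sub_mem (hr _ _ (hl _ _ (hE i k hik))) (hr _ _ (hr _ _ (hl _ _ heJ)))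
      · show ρ l (e * (w i * w k)) = 0
        have : w i * e = e * w i := ((hmemS _).mp (hwS i)).symm
        have h5 : e * w i * w k = e * w i * (e * w k) := by
          rw [← mul_assoc (e * w i) e, mul_assoc e (w i) e, this, ← mul_assoc e e, hee.eq]
        rw [← mul_assoc, h5, hew, hew, map_mul, hρe, hρe]
        by_cases h : l = i
        · have : l ≠ k := by rw [h]; exact hik
          rw [if_neg this, mul_zero]
        · rw [if_neg h, zero_mul]
    · show ∑ i, q _ = 1
      rw [← map_sum, ← map_one q, hq, hN]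
      have hco : ((∑ i, (⟨w i, hwS i⟩ : S) - 1 : S) : R) = ∑ i, w i - 1 := by
        push_cast
        rfl
      rw [hco]
      refine ⟨?_, fun k => ?_⟩
      · have h0 : e' * (1 - ∑ i, E i) * e' = e' - ∑ i, e' * E i * e' := by
          rw [mul_sub e', mul_one, sub_mul e', hee', Finset.mul_sum, Finset.sum_mul]
        have h1 : e' * (∑ i, w i - 1) = - (e' * (1 - ∑ i, E i) * e') := by
          rw [mul_sub e', Finset.mul_sum, Finset.sum_congr rfl fun i _ => he'w i, mul_one, h0, neg_sub]
        rw [h1]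
        exact J.neg_mem (hr _ _ (hl _ _ hsum))
      · rw [mul_sub, Finset.mul_sum, Finset.sum_congr rfl fun i _ => hew i, mul_one, map_sub, map_sum,
          Finset.sum_congr rfl fun i _ => hρe k i, Finset.sum_ite_eq, if_pos (Finset.mem_univ k), sub_self]
  obtain ⟨p, hp, hpq⟩ := CompleteOrthogonalIdempotents.lift_of_isNilpotent_ker q hker hcomp
    (fun i => ⟨⟨w i, hwS i⟩, rfl⟩)
  have hpw : ∀ i, p i - ⟨w i, hwS i⟩ ∈ N := fun i => (hq _ _).mp (congrFun hpq i)
  refine ⟨fun i => (p i : R), ⟨⟨fun i => ?_, fun i k hik => ?_⟩, ?_⟩, fun i k hki => ?_, fun i => ?_⟩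
  · have := hp.idem i
    exact congrArg Subtype.val this.eq
  · exact congrArg Subtype.val (hp.ortho hik)
  · have := hp.complete
    have h2 := congrArg (Subtype.val : S → R) this
    push_cast at h2
    exact h2
  · obtain ⟨h1, h2⟩ := (hN _).mp (hpw i)
    have h1' : e' * ((p i : R) - w i) ∈ J := h1
    have h2' : ρ k (e * ((p i : R) - w i)) = 0 := h2 k
    have hpc : e * (p i : R) = p i * e := (hmemS _).mp (p i).2
    have hpi : (p i : R) * p i = p i := congrArg Subtype.val (hp.idem i).eq
    have ha : ρ k (e * (p i : R)) = 0 := by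
      have : e * (p i : R) = e * ((p i : R) - w i) + e * w i := by rw [mul_sub]; abel
      rw [this, map_add, h2', hew, hρe, if_neg hki, zero_add]
    obtain ⟨z, hzJ, hz⟩ := hact i k hki
    set x : R := e' * ((p i : R) - w i) + e' * z * e' with hx
    have hxJ : x ∈ J := J.add_mem h1' (hr _ _ (hl _ _ hzJ))
    have hb : ρ k (e' * (p i : R)) = ρ k x := by
      have : e' * (p i : R) = e' * ((p i : R) - w i) + e' * E i * e' := by rw [mul_sub, he'w]; abel
      rw [this, hx, map_add, map_add, map_mul, map_mul, map_mul, map_mul, hz]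
      simp [map_mul]
    have hwc : w i * e = e * w i := ((hmemS _).mp (hwS i)).symm
    have hxnil : IsNilpotent x := by
      refine hnile x hxJ ?_ ?_
      · rw [hx, mul_add, ← mul_assoc, hee0, zero_mul, ← mul_assoc, ← mul_assoc, hee0, zero_mul, zero_mul, zero_add]
      · have hpw' : ((p i : R) - w i) * e = e * ((p i : R) - w i) := by
          rw [sub_mul (p i : R) (w i) e, mul_sub e, hpc, hwc]
        rw [hx, add_mul, mul_assoc e', hpw', ← mul_assoc, hee0', zero_mul, mul_assoc (e' * z), hee0', mul_zero, zero_add]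
    have hidem : IsIdempotentElem (ρ k (e' * (p i : R))) := by
      unfold IsIdempotentElem
      rw [← map_mul]
      congr 1
      have : e' * (p i : R) * (e' * p i) = e' * (e' * (p i * p i)) := by
        have hpc' : (p i : R) * e' = e' * p i := by rw [he', mul_sub, sub_mul, mul_one, one_mul, hpc]
        rw [mul_assoc, ← mul_assoc (p i : R), hpc', mul_assoc]
      rw [this, hpi, ← mul_assoc, hee']
    have hc : ρ k (e' * (p i : R)) = 0 := by
      have hn : IsNilpotent (ρ k (e' * (p i : R))) := by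
        rw [hb]
        exact hxnil.map (ρ k)
      obtain ⟨n, hn⟩ := hn
      rcases Nat.eq_zero_or_pos n with h0 | h0
      · subst h0
        rw [pow_zero] at hn
        rw [← mul_one (ρ k (e' * (p i : R))), hn, mul_zero]
      · obtain ⟨n', rfl⟩ := Nat.exists_eq_succ_of_ne_zero h0.ne'
        rwa [hidem.pow_succ_eq] at hn
    have : (p i : R) = e * p i + e' * p i := by rw [he', sub_mul, one_mul]; abel
    show ρ k (p i : R) = 0
    rw [this, map_add, ha, hc, add_zero]
  · have h1 : e' * ((p i : R) - w i) ∈ J := ((hN _).mp (hpw i)).1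
    have h2 : (p i : R) - E i = e * ((p i : R) - w i) + e' * ((p i : R) - w i) +
        (e * y i * e + e * E i * e - E i * e - e * E i) := by
      show (p i : R) - E i = e * ((p i : R) - (e' * E i * e' + e * y i * e)) +
        e' * ((p i : R) - (e' * E i * e' + e * y i * e)) + (e * y i * e + e * E i * e - E i * e - e * E i)
      rw [he']
      noncomm_ring
    show (p i : R) - E i ∈ J
    rw [h2]
    refine J.add_mem (J.add_mem (hr _ _ heJ) h1) ?_
    exact J.sub_mem (J.sub_mem (J.add_mem (hl _ _ heJ) (hl _ _ heJ)) (hl _ _ heJ)) (hr _ _ heJ)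

end

end Pool.Agent.L0h14.CK
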